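import Pool.Agent.J4H32.MV.S5

/-!
# Project MV (helper32), piece E3: counting exceptional vectors (helper6)
-/

set_option autoImplicit false
namespace Pool.Agent.J4H6.MV
open Finset

open Pool.Agent.J4H32.MV

open Classical in
theorem t_CN : S_CN := by
  intro k W Y Z b Ex M hW hb hM h
  have hW0 : 0 < W := hW
  set R : Finset (Fin k → ℕ) := Fintype.piFinset (fun _ : Fin k => range W) with hR
  have hRc : R.card = W ^ k := by simp [hR]
  let F : (Fin k → ℕ) × ℕ → (Σ _ : (Fin k → ℕ), (Fin (k + 1) → ℕ)) := fun x =>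
    ⟨fun i => x.1 i % W, fun j => x.2 + (b (fun i => x.1 i % W) + aa x.1 j) / W⟩
  have hinj : Set.InjOn F (Z ×ˢ range Y : Finset ((Fin k → ℕ) × ℕ)) := by
    rintro ⟨m, t⟩ _ ⟨m', t'⟩ _ hF
    simp only [F, Sigma.mk.injEq, heq_eq_eq] at hF
    obtain ⟨h1, h2⟩ := hF
    rw [← h1] at h2
    set β := b (fun i => m i % W) with hβ
    have hβW : β < W := hb _
    have h3 := congrFun h2 0
    simp only [aa, Fin.cons_zero, add_zero, Nat.div_eq_of_lt hβW] at h3
    subst h3
    have h4 : m = m' := by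
      funext i
      have h5 := congrFun h2 i.succ
      simp only [aa, Fin.cons_succ] at h5
      have h6 : (β + m i) / W = (β + m' i) / W := by omega
      have h7 : m i % W = m' i % W := congrFun h1 i
      have h8 : (β + m i) % W = (β + m' i) % W := Nat.ModEq.add_left β h7
      have h9 := Nat.div_add_mod (β + m i) W
      have h10 := Nat.div_add_mod (β + m' i) W
      rw [h6, h8, h10] at h9
      omega
    rw [h4]
  have hmaps : ∀ x ∈ (Z ×ˢ range Y : Finset ((Fin k → ℕ) × ℕ)), F x ∈ R.sigma Ex := by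
    rintro ⟨m, t⟩ hx
    rw [mem_product, mem_range] at hx
    rw [mem_sigma]
    refine ⟨?_, h m hx.1 t hx.2⟩
    simp only [F, hR, Fintype.mem_piFinset, mem_range]
    exact fun i => Nat.mod_lt _ hW0
  have hcard := card_le_card_of_injOn F hmaps hinj
  rw [card_product, card_range, card_sigma] at hcard
  have h1 : ((Z.card * Y : ℕ) : ℝ) ≤ ((∑ ρ ∈ R, (Ex ρ).card : ℕ) : ℝ) := by exact_mod_cast hcard
  rw [Nat.cast_mul, Nat.cast_sum] at h1
  refine h1.trans ((sum_le_card_nsmul R _ M fun ρ _ => hM ρ).trans ?_)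
  rw [hRc, nsmul_eq_mul, Nat.cast_pow]
end Pool.Agent.J4H6.MV
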